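import Mathlib

namespace Pool.Agent.Results.MP_e17fb9_al.No

open Equiv

/-- The map `a_i` on words: `a_i(∅) = ∅`, `a_i(jw) = (ij) a_{j⁻¹i}(w)`. -/
def a {Y : Type} [Group Y] : Y → List Y → List Y
  | _, [] => []
  | i, j :: w => (i * j) :: a (j⁻¹ * i) w

/-- The group generated by the bijections `a_i`. -/
def GY (Y : Type) [Group Y] : Subgroup (Perm (List Y)) :=
  Subgroup.closure {σ | ∃ i, ⇑σ = a i}

/-- The map defined at state `q` by the automaton with transition map `δ` whose output map at
state `q` is left multiplication by `g q`. -/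
def run {Y Q : Type} [Group Y] (δ : Q → Y → Q) (g : Q → Y) : Q → List Y → List Y
  | _, [] => []
  | q, x :: w => (g q * x) :: run δ g (δ q x) w

/-- The finite state wreath power of the regular group `Y`. -/
def W (Y : Type) [Group Y] : Set (List Y → List Y) :=
  {f | ∃ (Q : Type) (_ : Finite Q) (δ : Q → Y → Q) (g : Q → Y) (q : Q), f = run δ g q}

/-- The lamplighter group: the finitely supported part of the regular wreath product. -/
def Lamp (Y : Type) [Group Y] : Subgroup (RegularWreathProduct Y (Multiplicative ℤ)) where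
  carrier := {x | (Function.mulSupport x.left).Finite}
  one_mem' := by simp
  mul_mem' {x y} hx hy := ((hx.union (hy.preimage (f := fun t => x.right⁻¹ * t)
    (mul_right_injective _).injOn)).subset (Function.mulSupport_mul _ _))
  inv_mem' {x} hx := (hx.preimage (f := fun t => x.right * t)
    (mul_right_injective _).injOn).subset fun t ht => by simpa using ht

theorem result (Y : Type) [Group Y] [Finite Y] (hY : ∃ u v : Y, u * v ≠ v * u) :
    (∀ i : Y, Function.Bijective (a i)) ∧ IsEmpty (GY Y ≃* Lamp Y) ∧
      ¬∃ φ : Lamp Y →* Perm (List Y), Function.Injective φ ∧ ∀ x, ⇑(φ x) ∈ W Y := by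
  classical
  obtain ⟨u, v, huv⟩ := hY
  have key : ∀ φ : Lamp Y →* Perm (List Y), (∀ x w, (φ x w).length = w.length) →
      ¬Function.Injective φ := by
    intro φ hl hφ
    let e : Y → Multiplicative ℤ → Lamp Y := fun y t => ⟨⟨Pi.mulSingle t y, 1⟩,
      (Set.finite_singleton t).subset Pi.mulSupport_mulSingle_subset⟩
    let s : Multiplicative ℤ →* Lamp Y := RegularWreathProduct.inl.codRestrict _ fun t =>
      show (Function.mulSupport (1 : Multiplicative ℤ → Y)).Finite by simp
    have h1 : ∀ t, s t * e v 1 = e v t * s t := fun t => Subtype.ext (by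
      ext x
      · simp [s, e, Pi.mulSingle_apply, inv_mul_eq_one, eq_comm]
      · simp [s, e])
    have h2 : ∀ t, t ≠ 1 → e u 1 * e v t = e v t * e u 1 := fun t ht => Subtype.ext (by
      ext x
      · simp only [e, Subgroup.coe_mul, RegularWreathProduct.mul_left, inv_one, one_mul]
        exact congrFun (Pi.mulSingle_commute (f := fun _ => Y) ht.symm u v).eq x
      · simp [e])
    have h3 : e u 1 * e v 1 = e v 1 * e u 1 := hφ (Perm.ext fun w => by
      haveI : Finite {l : List Y // l.length = w.length} := (List.finite_length_eq Y _).to_subtype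
      let ρ : Lamp Y →* Perm {l : List Y // l.length = w.length} := MonoidHom.mk'
        (fun x => (φ x).subtypePerm fun l => by rw [hl]) fun x y => by ext; simp
      have hm := orderOf_pos (ρ (s (Multiplicative.ofAdd 1)))
      have h4 : ρ (s (Multiplicative.ofAdd 1 ^ orderOf (ρ (s (Multiplicative.ofAdd 1))))) = 1 := by
        rw [map_pow, map_pow, pow_orderOf_eq_one]
      have h5 := congrArg ρ (h1 (Multiplicative.ofAdd 1 ^ orderOf (ρ (s (Multiplicative.ofAdd 1)))))
      rw [map_mul, map_mul, h4, one_mul, mul_one] at h5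
      have h6 := congrArg ρ (h2 (Multiplicative.ofAdd 1 ^ orderOf (ρ (s (Multiplicative.ofAdd 1))))
        (by rw [← ofAdd_nsmul, Ne, ofAdd_eq_one]; simpa using hm.ne'))
      rw [map_mul, map_mul, ← h5, ← map_mul, ← map_mul] at h6
      exact congrArg Subtype.val (congrArg (fun σ => σ ⟨w, rfl⟩) h6))
    have h7 := congrArg (fun x : Lamp Y => x.1.left 1) h3
    exact huv (by simpa [e] using h7)
  have la : ∀ (w : List Y) (i : Y), (a i w).length = w.length := fun w => by
    induction w with
    | nil => intro; rfl
    | cons j w ih => intro i; simp [a, ih]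
  refine ⟨fun i => ⟨fun w w' h => ?_, fun w => ?_⟩, ⟨fun ψ => ?_⟩, ?_⟩
  · induction w generalizing i w' with
    | nil => cases w' <;> simp_all [a]
    | cons j w ih =>
      cases w' with
      | nil => simp [a] at h
      | cons k w' =>
        simp only [a, List.cons.injEq, mul_right_inj] at h
        obtain ⟨rfl, h⟩ := h
        rw [ih _ _ h]
  · induction w generalizing i with
    | nil => exact ⟨[], rfl⟩
    | cons k w ih =>
      obtain ⟨w', h⟩ := ih ((i⁻¹ * k)⁻¹ * i)
      exact ⟨(i⁻¹ * k) :: w', by rw [a, h, mul_inv_cancel_left]⟩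
  · refine key ((GY Y).subtype.comp ψ.symm.toMonoidHom) (fun x => ?_)
      (Subtype.val_injective.comp ψ.symm.injective)
    change ∀ w, ((ψ.symm x).1 w).length = w.length
    refine Subgroup.closure_induction (p := fun σ _ => ∀ w, (σ w).length = w.length) ?_ ?_ ?_ ?_
      (ψ.symm x).2
    · rintro σ ⟨i, h⟩ w; rw [h, la]
    · intro w; rfl
    · intro σ τ _ _ h1 h2 w; rw [Perm.mul_apply, h1, h2]
    · intro σ _ h w; rw [← h]; simp
  · rintro ⟨φ, h1, h2⟩
    refine key φ (fun x w => ?_) h1
    obtain ⟨Q, _, δ, g, q, h⟩ := h2 x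
    rw [h]
    clear h
    induction w generalizing q with
    | nil => rfl
    | cons j w ih => simp [run, ih]

end Pool.Agent.Results.MP_e17fb9_al.No
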